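import Mathlib

/-! Real analysis of the union bound for matroid unions (room 3bf421, theorem (A)). -/

set_option autoImplicit false

namespace MP_3bf421_lc.UN

open Finset

/-- The number of elements rejected at the beginning. -/
noncomputable def TA (ε : ℝ) (n : ℕ) : ℕ := ⌊(1 + ε) * n / Real.exp 1⌋₊

/-- The size of the first part of the sample. -/
noncomputable def SA (ε : ℝ) (n : ℕ) : ℕ := ⌊ε * n / 4⌋₊

/-- Exponent. -/
noncomputable def dA (ε : ℝ) : ℝ := 2 * ε ^ 2 / 25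

theorem dA_pos {ε : ℝ} (h : 0 < ε) : 0 < dA ε := by
  unfold dA
  positivity

theorem exp_one_gt : (2.718 : ℝ) < Real.exp 1 := by
  have := Real.exp_one_gt_d9
  linarith

theorem exp_one_lt : Real.exp 1 < (2.7183 : ℝ) := by
  have := Real.exp_one_lt_d9
  linarith

theorem TA_le_mul {ε : ℝ} (h0 : 0 ≤ ε) (n : ℕ) : (TA ε n : ℝ) ≤ (1 + ε) * n / Real.exp 1 := by
  unfold TA
  apply Nat.floor_le
  have := Real.exp_pos 1
  positivity

theorem TA_le {ε : ℝ} (h0 : 0 ≤ ε) (h1 : ε ≤ 1) (n : ℕ) : TA ε n ≤ n := by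
  have h := TA_le_mul h0 n
  have he := exp_one_gt
  have h2 : (1 + ε) * n / Real.exp 1 ≤ n := by
    rw [div_le_iff₀ (Real.exp_pos 1), mul_comm (n : ℝ)]
    exact mul_le_mul_of_nonneg_right (by linarith) (Nat.cast_nonneg n)
  exact_mod_cast h.trans h2

theorem lt_TA (ε : ℝ) (n : ℕ) : (1 + ε) * n / Real.exp 1 < TA ε n + 1 := Nat.lt_floor_add_one _

theorem SA_le_mul {ε : ℝ} (h0 : 0 ≤ ε) (n : ℕ) : (SA ε n : ℝ) ≤ ε * n / 4 := by
  unfold SA
  apply Nat.floor_le
  positivity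

theorem lt_SA (ε : ℝ) (n : ℕ) : ε * n / 4 < SA ε n + 1 := Nat.lt_floor_add_one _

/-- The harmonic sum between `a` and `b`. -/
theorem harm_le {a b : ℕ} (ha : 1 ≤ a) (hab : a < b) :
    ∑ t ∈ Ico (a + 1) b, (1 : ℝ) / t ≤ Real.log ((b : ℝ) / a) := by
  have key : ∀ b, a + 1 ≤ b → ∑ t ∈ Ico (a + 1) b, (1 : ℝ) / t ≤ Real.log (((b - 1 : ℕ) : ℝ) / a) := by
    intro b hb
    induction b, hb using Nat.le_induction with
    | base =>
      have ha' : (a : ℝ) ≠ 0 := by positivity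
      simp [ha']
    | succ b hb ih =>
      rw [Finset.sum_Ico_succ_top hb]
      have ha' : (0 : ℝ) < a := by exact_mod_cast ha
      have hb1 : (0 : ℝ) < ((b - 1 : ℕ) : ℝ) := by
        have : 0 < b - 1 := by omega
        exact_mod_cast this
      have hb0 : (0 : ℝ) < (b : ℝ) := by
        have : 0 < b := by omega
        exact_mod_cast this
      have hcast : ((b - 1 : ℕ) : ℝ) = b - 1 := by
        rw [Nat.cast_sub (by omega)]
        simp
      have h1 : Real.log ((((b + 1 - 1 : ℕ)) : ℝ) / a) =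
          Real.log (((b - 1 : ℕ) : ℝ) / a) + Real.log ((b : ℝ) / ((b - 1 : ℕ) : ℝ)) := by
        rw [← Real.log_mul (by positivity) (by positivity)]
        congr 1
        rw [Nat.add_sub_cancel]
        field_simp
      rw [h1]
      have h2 : (1 : ℝ) / b ≤ Real.log ((b : ℝ) / ((b - 1 : ℕ) : ℝ)) := by
        have h3 := Real.one_sub_inv_le_log_of_pos (x := (b : ℝ) / ((b - 1 : ℕ) : ℝ)) (by positivity)
        refine le_trans ?_ h3
        rw [hcast, inv_div]
        field_simp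
        linarith
      linarith
  refine (key b hab).trans ?_
  have ha' : (0 : ℝ) < a := by exact_mod_cast ha
  have hb1 : (0 : ℝ) < ((b - 1 : ℕ) : ℝ) := by
    have : 0 < b - 1 := by omega
    exact_mod_cast this
  apply Real.log_le_log (by positivity)
  apply div_le_div_of_nonneg_right _ ha'.le
  exact_mod_cast Nat.sub_le b 1

/-- Product bound. -/
theorem prod_le_exp (s : Finset ℕ) (c : ℝ) (hc : 0 ≤ c) :
    ∏ t ∈ s, (1 + c / t) ≤ Real.exp (c * ∑ t ∈ s, (1 : ℝ) / t) := by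
  rw [Finset.mul_sum, Real.exp_sum]
  apply Finset.prod_le_prod
  · intro t _
    positivity
  · intro t _
    have := Real.add_one_le_exp (c * (1 / (t : ℝ)))
    have h2 : c / t = c * (1 / (t : ℝ)) := by ring
    rw [h2]
    linarith

/-- The times are in the right order and the harmonic sum is less than `1`. -/
theorem harmA {ε : ℝ} (h0 : 0 < ε) (h1 : ε ≤ 1 / 10) {n : ℕ} (hn : 50 / ε ≤ n) :
    SA ε n < TA ε n ∧ TA ε n < n ∧
    ∑ t ∈ Ico (TA ε n - SA ε n + 1) (n - SA ε n), (1 : ℝ) / t ≤ 1 - 2 * ε / 5 := by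
  have he1 := exp_one_gt
  have he2 := exp_one_lt
  have hepos := Real.exp_pos 1
  have hn' : 50 ≤ ε * n := by
    rw [div_le_iff₀ h0] at hn
    linarith
  have hn500 : (500 : ℝ) ≤ n := by
    have h2 : 50 / ε ≥ 500 := by
      rw [ge_iff_le, le_div_iff₀ h0]
      linarith
    linarith
  have hS := SA_le_mul h0.le n
  have hS' := lt_SA ε n
  have hT := TA_le_mul h0.le n
  have hT' := lt_TA ε n
  rw [le_div_iff₀ hepos] at hT
  rw [div_lt_iff₀ hepos] at hT'
  set S : ℝ := (SA ε n : ℝ) with hSdef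
  set T : ℝ := (TA ε n : ℝ) with hTdef
  have hT0 : 0 ≤ T := by rw [hTdef]; positivity
  have hS0 : 0 ≤ S := by rw [hSdef]; positivity
  have hTn : T < n := by
    have h3 : T * 2.718 ≤ (1 + ε) * n := (mul_le_mul_of_nonneg_left he1.le hT0).trans hT
    nlinarith
  have hST : S + 1 < T := by
    have h3 : (1 + ε) * n < (T + 1) * 2.7183 :=
      hT'.trans_le (mul_le_mul_of_nonneg_left he2.le (by linarith))
    nlinarith
  have hST' : SA ε n + 1 < TA ε n := by
    rw [hSdef, hTdef] at hST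
    exact_mod_cast hST
  have hTn' : TA ε n < n := by
    rw [hTdef] at hTn
    exact_mod_cast hTn
  refine ⟨by omega, hTn', ?_⟩
  refine (harm_le (a := TA ε n - SA ε n) (b := n - SA ε n) (by omega) (by omega)).trans ?_
  rw [Nat.cast_sub (by omega), Nat.cast_sub (by omega), ← hSdef, ← hTdef]
  have hpos : 0 < T - S := by linarith
  have hkey : ((n : ℝ) - S) / (T - S) ≤ Real.exp 1 * (1 - 2 * ε / 5) := by
    rw [div_le_iff₀ hpos]
    -- (n - S) ≤ e (1 - 2ε/5) (T - S)
    have h3 : (1 + ε) * n - Real.exp 1 ≤ Real.exp 1 * T := by linarith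
    have h4 : 0 < 1 - 2 * ε / 5 := by linarith
    have h5 : Real.exp 1 * (1 - 2 * ε / 5) * (T - S)
        = (1 - 2 * ε / 5) * (Real.exp 1 * T) - (Real.exp 1 * (1 - 2 * ε / 5)) * S := by ring
    rw [h5]
    have h6 : (1 - 2 * ε / 5) * ((1 + ε) * n - Real.exp 1) ≤ (1 - 2 * ε / 5) * (Real.exp 1 * T) :=
      mul_le_mul_of_nonneg_left h3 h4.le
    have h7 : (Real.exp 1 * (1 - 2 * ε / 5) - 1) * S ≤ (Real.exp 1 * (1 - 2 * ε / 5) - 1) * (ε * n / 4) := by
      apply mul_le_mul_of_nonneg_left hS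
      nlinarith
    have h8 : (Real.exp 1 * (1 - 2 * ε / 5) - 1) * (ε * n / 4) ≤ (1.7183 * (1 - 2 * ε / 5)) * (ε * n / 4) + 0 * n := by
      rw [zero_mul, add_zero]
      apply mul_le_mul_of_nonneg_right _ (by positivity)
      nlinarith
    have h9 : (1 - 2 * ε / 5) * Real.exp 1 ≤ 2.7183 := by
      nlinarith
    have h10 : 2.7183 ≤ 0.054366 * (ε * n) := by nlinarith
    nlinarith
  calc Real.log (((n : ℝ) - S) / (T - S)) ≤ Real.log (Real.exp 1 * (1 - 2 * ε / 5)) := by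
        apply Real.log_le_log _ hkey
        apply div_pos _ hpos
        linarith
    _ = 1 + Real.log (1 - 2 * ε / 5) := by
        rw [Real.log_mul hepos.ne' (by linarith), Real.log_exp]
    _ ≤ 1 - 2 * ε / 5 := by
        have := Real.log_le_sub_one_of_pos (x := 1 - 2 * ε / 5) (by linarith)
        linarith

/-- The choice of the parameter of the exponential moment. -/
noncomputable def lamA (ε : ℝ) : ℝ := (1 - 2 * ε / 5)⁻¹

theorem one_le_lamA {ε : ℝ} (h0 : 0 < ε) (h1 : ε ≤ 1 / 10) : 1 ≤ lamA ε := by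
  unfold lamA
  rw [one_le_inv₀ (by linarith)]
  linarith

theorem momA {ε : ℝ} (h0 : 0 < ε) (h1 : ε ≤ 1 / 10) {n : ℕ} (hn : 50 / ε ≤ n) (f : ℕ) :
    ∏ t ∈ Ico (TA ε n - SA ε n + 1) (n - SA ε n), (1 + (lamA ε - 1) * f / t)
      ≤ lamA ε ^ f * Real.exp (-(dA ε * f)) := by
  obtain ⟨-, -, hH⟩ := harmA h0 h1 hn
  have hl := one_le_lamA h0 h1
  have hη : 0 < 1 - 2 * ε / 5 := by linarith
  refine (prod_le_exp _ ((lamA ε - 1) * f) (mul_nonneg (by linarith) (Nat.cast_nonneg f))).trans ?_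
  have hf : (0 : ℝ) ≤ f := Nat.cast_nonneg f
  have h2 : lamA ε ^ f = Real.exp (f * Real.log (lamA ε)) := by
    rw [mul_comm, Real.exp_mul, Real.exp_log (by linarith), Real.rpow_natCast]
  rw [h2, ← Real.exp_add]
  apply Real.exp_le_exp.2
  -- (λ-1) f H ≤ f log λ - δ f
  have h3 : (lamA ε - 1) * f * ∑ t ∈ Ico (TA ε n - SA ε n + 1) (n - SA ε n), (1 : ℝ) / t
      ≤ (lamA ε - 1) * f * (1 - 2 * ε / 5) :=
    mul_le_mul_of_nonneg_left hH (mul_nonneg (by linarith) hf)
  have h4 : (lamA ε - 1) * (1 - 2 * ε / 5) = 2 * ε / 5 := by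
    unfold lamA
    rw [sub_mul, inv_mul_cancel₀ hη.ne']
    ring
  have h5 : Real.log (lamA ε) = - Real.log (1 - 2 * ε / 5) := by
    unfold lamA
    rw [Real.log_inv]
  have h6 : 2 * ε / 5 + dA ε ≤ Real.log (lamA ε) := by
    rw [h5]
    unfold dA
    have h7 : Real.log (1 - 2 * ε / 5) ≤ -(2 * ε / 5) - (2 * ε / 5) ^ 2 / 2 := by
      have h8 := Real.hasSum_pow_div_log_of_abs_lt_one (x := 2 * ε / 5)
        (by rw [abs_of_pos (by positivity)]; linarith)
      have h9 := sum_le_hasSum (range 2) (fun i _ => by positivity) h8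
      rw [Finset.sum_range_succ, Finset.sum_range_one] at h9
      norm_num at h9
      linarith
    nlinarith
  calc (lamA ε - 1) * f * ∑ t ∈ Ico (TA ε n - SA ε n + 1) (n - SA ε n), (1 : ℝ) / t
      ≤ (lamA ε - 1) * f * (1 - 2 * ε / 5) := h3
    _ = f * ((lamA ε - 1) * (1 - 2 * ε / 5)) := by ring
    _ = f * (2 * ε / 5) := by rw [h4]
    _ ≤ f * Real.log (lamA ε) + -(dA ε * f) := by nlinarith

/-- The constant of theorem (A). -/
noncomputable def CA (ε : ℝ) : ℝ :=
  (1 + Real.log (10 / ε ^ 3) / Real.log 2) / dA ε + 50 / ε / Real.log 2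

theorem CA_pos {ε : ℝ} (h0 : 0 < ε) (h1 : ε ≤ 1 / 10) : 0 < CA ε := by
  unfold CA
  have h2 : 0 < Real.log 2 := Real.log_pos one_lt_two
  have h3 : 1 ≤ 10 / ε ^ 3 := by
    rw [le_div_iff₀ (by positivity)]
    have : ε ^ 3 ≤ 1 := pow_le_one₀ h0.le (by linarith)
    linarith
  have h4 := Real.log_nonneg h3
  have h5 := dA_pos h0
  positivity

theorem big_of_lt {ε : ℝ} (h0 : 0 < ε) (h1 : ε ≤ 1 / 10) {n r k : ℕ} (hr : 1 ≤ r)
    (hk : CA ε * Real.log (r + 1) ≤ k) (hkn : k < n) : 50 / ε ≤ n := by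
  have h2 : 0 < Real.log 2 := Real.log_pos one_lt_two
  have hr' : (1 : ℝ) ≤ r := by exact_mod_cast hr
  have h3 : Real.log 2 ≤ Real.log (r + 1) := Real.log_le_log two_pos (by linarith)
  have h4 : 50 / ε / Real.log 2 ≤ CA ε := by
    unfold CA
    have h3 : 1 ≤ 10 / ε ^ 3 := by
      rw [le_div_iff₀ (by positivity)]
      have : ε ^ 3 ≤ 1 := pow_le_one₀ h0.le (by linarith)
      linarith
    have h4 := Real.log_nonneg h3
    have h5 := dA_pos h0
    have h6 : 0 ≤ (1 + Real.log (10 / ε ^ 3) / Real.log 2) / dA ε := by positivity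
    linarith
  have h5 : 50 / ε / Real.log 2 * Real.log 2 ≤ CA ε * Real.log (r + 1) :=
    mul_le_mul h4 h3 h2.le (CA_pos h0 h1).le
  rw [div_mul_cancel₀ _ h2.ne'] at h5
  have h6 : (k : ℝ) ≤ n := by exact_mod_cast hkn.le
  linarith

theorem exp_small {ε : ℝ} (h0 : 0 < ε) (h1 : ε ≤ 1 / 10) {r k : ℕ} (hr : 1 ≤ r)
    (hk : CA ε * Real.log (r + 1) ≤ k) : r * Real.exp (-(dA ε * k)) ≤ ε ^ 3 / 10 := by
  have hd := dA_pos h0
  have h2 : 0 < Real.log 2 := Real.log_pos one_lt_two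
  have hr' : (1 : ℝ) ≤ r := by exact_mod_cast hr
  have h3 : Real.log 2 ≤ Real.log (r + 1) := Real.log_le_log two_pos (by linarith)
  have h3' : Real.log r ≤ Real.log (r + 1) := Real.log_le_log (by linarith) (by linarith)
  have h4 : 1 ≤ 10 / ε ^ 3 := by
    rw [le_div_iff₀ (by positivity)]
    have : ε ^ 3 ≤ 1 := pow_le_one₀ h0.le (by linarith)
    linarith
  have h5 := Real.log_nonneg h4
  have h6 : (1 + Real.log (10 / ε ^ 3) / Real.log 2) / dA ε ≤ CA ε := by
    unfold CA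
    have : 0 ≤ 50 / ε / Real.log 2 := by positivity
    linarith
  have h7 : Real.log r + Real.log (10 / ε ^ 3) ≤ dA ε * k := by
    have h8 : (1 + Real.log (10 / ε ^ 3) / Real.log 2) / dA ε * Real.log (r + 1) ≤ k :=
      (mul_le_mul_of_nonneg_right h6 (by linarith)).trans hk
    have h9 : (1 + Real.log (10 / ε ^ 3) / Real.log 2) * Real.log (r + 1) ≤ dA ε * k := by
      rw [div_mul_eq_mul_div, div_le_iff₀ hd] at h8
      linarith
    have h10 : Real.log (10 / ε ^ 3) ≤ Real.log (10 / ε ^ 3) / Real.log 2 * Real.log (r + 1) := by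
      rw [div_mul_eq_mul_div, le_div_iff₀ h2]
      exact mul_le_mul_of_nonneg_left h3 h5
    nlinarith
  have h8 : Real.exp (-(dA ε * k)) ≤ Real.exp (-(Real.log r + Real.log (10 / ε ^ 3))) :=
    Real.exp_le_exp.2 (by linarith)
  have h9 : Real.exp (-(Real.log r + Real.log (10 / ε ^ 3))) = (r : ℝ)⁻¹ * (ε ^ 3 / 10) := by
    rw [Real.exp_neg, Real.exp_add, Real.exp_log (by linarith), Real.exp_log (by positivity),
      mul_inv, inv_div]
  rw [h9] at h8
  calc (r : ℝ) * Real.exp (-(dA ε * k)) ≤ r * ((r : ℝ)⁻¹ * (ε ^ 3 / 10)) :=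
        mul_le_mul_of_nonneg_left h8 (by linarith)
    _ = ε ^ 3 / 10 := by
        rw [← mul_assoc, mul_inv_cancel₀ (by linarith), one_mul]

/-- The union bound: the sum over the nonempty subsets `J` of a set `P` of size at most
`5 r / ε ^ 2`. -/
theorem sum_unionA {ε : ℝ} (h0 : 0 < ε) (h1 : ε ≤ 1 / 10) {r k : ℕ} (hr : 1 ≤ r)
    (hk : CA ε * Real.log (r + 1) ≤ k) {α : Type*} [DecidableEq α] (P : Finset α)
    (hP : (P.card : ℝ) ≤ 5 * r / ε ^ 2) (F : Finset α → ℕ) :
    ∑ J ∈ P.powerset.filter (fun J => J.Nonempty ∧ k * J.card ≤ F J),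
      Real.exp (-(dA ε * F J)) ≤ ε := by
  have hd := dA_pos h0
  set x : ℝ := Real.exp (-(dA ε * k)) with hx
  have hx0 : 0 < x := Real.exp_pos _
  have hx1 := exp_small h0 h1 hr hk
  rw [← hx] at hx1
  have hPx : P.card * x ≤ ε / 2 := by
    calc P.card * x ≤ 5 * r / ε ^ 2 * x := mul_le_mul_of_nonneg_right hP hx0.le
      _ = 5 / ε ^ 2 * (r * x) := by ring
      _ ≤ 5 / ε ^ 2 * (ε ^ 3 / 10) := mul_le_mul_of_nonneg_left hx1 (by positivity)
      _ = ε / 2 := by field_simp; ring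
  have h2 : ∀ J ∈ P.powerset.filter (fun J => J.Nonempty ∧ k * J.card ≤ F J),
      Real.exp (-(dA ε * F J)) ≤ x ^ J.card := by
    intro J hJ
    rw [Finset.mem_filter] at hJ
    rw [hx, ← Real.exp_nat_mul]
    apply Real.exp_le_exp.2
    have h3 : ((k : ℝ) * J.card) ≤ F J := by exact_mod_cast hJ.2.2
    nlinarith
  have h3 : ∑ J ∈ P.powerset, x ^ J.card = (1 + x) ^ P.card := by
    have := Finset.prod_add (fun _ : α => x) (fun _ => (1 : ℝ)) P
    simp only [Finset.prod_const, one_pow, mul_one] at this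
    rw [← this, add_comm]
  have hempty : (∅ : Finset α) ∉ P.powerset.filter (fun J => J.Nonempty ∧ k * J.card ≤ F J) := by
    simp
  have h4 : ∑ J ∈ P.powerset.filter (fun J => J.Nonempty ∧ k * J.card ≤ F J), x ^ J.card
      ≤ (1 + x) ^ P.card - 1 := by
    rw [← h3]
    have h5 : insert ∅ (P.powerset.filter (fun J => J.Nonempty ∧ k * J.card ≤ F J)) ⊆ P.powerset := by
      intro J hJ
      rw [Finset.mem_insert] at hJ
      rcases hJ with rfl | hJ
      · simp
      · exact (Finset.mem_filter.1 hJ).1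
    have h6 := Finset.sum_le_sum_of_subset_of_nonneg h5
      (f := fun J => x ^ J.card) (fun _ _ _ => by positivity)
    rw [Finset.sum_insert hempty] at h6
    simp only [Finset.card_empty, pow_zero] at h6
    linarith
  have h5 : (1 + x) ^ P.card ≤ Real.exp (P.card * x) := by
    rw [Real.exp_nat_mul]
    apply pow_le_pow_left₀ (by positivity)
    have := Real.add_one_le_exp x
    linarith
  have h6 : Real.exp (P.card * x) ≤ 1 + ε := by
    have h7 : 0 ≤ P.card * x := by positivity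
    have h8 : Real.exp (P.card * x) ≤ Real.exp (ε / 2) := Real.exp_le_exp.2 hPx
    have h9 : Real.exp (ε / 2) ≤ 1 / (1 - ε / 2) := by
      have h10 := Real.add_one_le_exp (-(ε / 2))
      rw [Real.exp_neg] at h10
      rw [le_div_iff₀ (by linarith)]
      have h11 := Real.exp_pos (ε / 2)
      have h12 : (-(ε / 2) + 1) * Real.exp (ε / 2) ≤ (Real.exp (ε / 2))⁻¹ * Real.exp (ε / 2) :=
        mul_le_mul_of_nonneg_right h10 h11.le
      rw [inv_mul_cancel₀ h11.ne'] at h12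
      linarith
    have h10 : 1 / (1 - ε / 2) ≤ 1 + ε := by
      rw [div_le_iff₀ (by linarith)]
      nlinarith
    linarith
  calc ∑ J ∈ P.powerset.filter (fun J => J.Nonempty ∧ k * J.card ≤ F J),
      Real.exp (-(dA ε * F J)) ≤ _ := Finset.sum_le_sum h2
    _ ≤ (1 + x) ^ P.card - 1 := h4
    _ ≤ ε := by linarith

/-- Markov's inequality for the size of the first filter. -/
theorem markA {ε : ℝ} (h0 : 0 < ε) {n : ℕ} (hn : 50 / ε ≤ n) (h1 : ε ≤ 1 / 10) (r : ℕ) :
    ((n : ℝ) + 1) * r ≤ ε * (5 * r / ε ^ 2) * (SA ε n + 1) := by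
  have hS := lt_SA ε n
  have hn500 : (500 : ℝ) ≤ n := by
    have h2 : 50 / ε ≥ 500 := by
      rw [ge_iff_le, le_div_iff₀ h0]
      linarith
    linarith
  have h2 : ε * (5 * r / ε ^ 2) * (SA ε n + 1) = r * (5 / ε * (SA ε n + 1)) := by
    field_simp
  rw [h2, mul_comm]
  apply mul_le_mul_of_nonneg_left _ (Nat.cast_nonneg r)
  have h3 : 5 / ε * (ε * n / 4) ≤ 5 / ε * (SA ε n + 1) :=
    mul_le_mul_of_nonneg_left hS.le (by positivity)
  have h4 : 5 / ε * (ε * n / 4) = 5 / 4 * n := by field_simp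
  rw [h4] at h3
  linarith

end MP_3bf421_lc.UN
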