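import Mathlib

/-! Matroid union: the theorem of Rado and Edmonds on partitions into independent sets, in terms of
rank functions. -/

set_option autoImplicit false
set_option linter.unusedSectionVars false
set_option linter.unusedVariables false

namespace MP_3bf421_lc.UN

open Finset

variable {α ι : Type*} [DecidableEq α] [Fintype ι] [DecidableEq ι]

/-- The elements of `J` allowed in class `j`. -/
def cls (A : α → Finset ι) (J : Finset α) (j : ι) : Finset α := J.filter fun x => j ∈ A x

theorem mem_cls {A : α → Finset ι} {J : Finset α} {j : ι} {x : α} :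
    x ∈ cls A J j ↔ x ∈ J ∧ j ∈ A x := by
  unfold cls
  rw [Finset.mem_filter]

/-- Removing one of two allowed classes of an element. -/
theorem rado_step (r : ι → Finset α → ℕ) (hmono : ∀ j, Monotone (r j))
    (hsub : ∀ j X Y, r j (X ∩ Y) + r j (X ∪ Y) ≤ r j X + r j Y)
    (A : α → Finset ι) (X : Finset α) (h : ∀ J, J ⊆ X → J.card ≤ ∑ j, r j (cls A J j))
    {x : α} {a b : ι} (hab : a ≠ b) :
    (∀ J, J ⊆ X → J.card ≤ ∑ j, r j (cls (Function.update A x ((A x).erase a)) J j)) ∨
    (∀ J, J ⊆ X → J.card ≤ ∑ j, r j (cls (Function.update A x ((A x).erase b)) J j)) := by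
  by_contra hcon
  push Not at hcon
  obtain ⟨⟨J₁, hJ₁, h1⟩, ⟨J₂, hJ₂, h2⟩⟩ := hcon
  have hx : ∀ {J : Finset α} {c : ι}, x ∉ J → ∀ j,
      cls (Function.update A x ((A x).erase c)) J j = cls A J j := by
    intro J c hxJ j
    ext y
    rw [mem_cls, mem_cls]
    constructor
    · rintro ⟨h3, h4⟩
      have hyx : y ≠ x := by
        rintro rfl
        exact hxJ h3
      rw [Function.update_of_ne hyx] at h4
      exact ⟨h3, h4⟩
    · rintro ⟨h3, h4⟩
      have hyx : y ≠ x := by
        rintro rfl
        exact hxJ h3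
      rw [Function.update_of_ne hyx]
      exact ⟨h3, h4⟩
  have hx1 : x ∈ J₁ := by
    by_contra hx1
    have h3 := h J₁ hJ₁
    rw [Finset.sum_congr rfl fun j _ => by rw [hx hx1 j]] at h1
    omega
  have hx2 : x ∈ J₂ := by
    by_contra hx2
    have h3 := h J₂ hJ₂
    rw [Finset.sum_congr rfl fun j _ => by rw [hx hx2 j]] at h2
    omega
  set B₁ : ι → Finset α := fun j => cls (Function.update A x ((A x).erase a)) J₁ j with hB₁
  set B₂ : ι → Finset α := fun j => cls (Function.update A x ((A x).erase b)) J₂ j with hB₂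
  have hU : ∀ j, cls A (J₁ ∪ J₂) j ⊆ B₁ j ∪ B₂ j := by
    intro j y hy
    rw [mem_cls, Finset.mem_union] at hy
    rw [Finset.mem_union, hB₁, hB₂]
    simp only [mem_cls]
    by_cases hyx : y = x
    · rw [hyx, Function.update_self, Function.update_self]
      rw [hyx] at hy
      by_cases hja : j = a
      · refine Or.inr ⟨hx2, Finset.mem_erase.2 ⟨?_, hy.2⟩⟩
        rw [hja]
        exact hab
      · exact Or.inl ⟨hx1, Finset.mem_erase.2 ⟨hja, hy.2⟩⟩
    · rw [Function.update_of_ne hyx, Function.update_of_ne hyx]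
      rcases hy.1 with h3 | h3
      · exact Or.inl ⟨h3, hy.2⟩
      · exact Or.inr ⟨h3, hy.2⟩
  have hI : ∀ j, cls A ((J₁ ∩ J₂).erase x) j ⊆ B₁ j ∩ B₂ j := by
    intro j y hy
    rw [mem_cls, Finset.mem_erase, Finset.mem_inter] at hy
    rw [Finset.mem_inter, hB₁, hB₂]
    simp only [mem_cls]
    rw [Function.update_of_ne hy.1.1, Function.update_of_ne hy.1.1]
    exact ⟨⟨hy.1.2.1, hy.2⟩, ⟨hy.1.2.2, hy.2⟩⟩
  have e1 := h (J₁ ∪ J₂) (Finset.union_subset hJ₁ hJ₂)
  have e2 := h ((J₁ ∩ J₂).erase x)
    ((Finset.erase_subset _ _).trans (Finset.inter_subset_left.trans hJ₁))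
  have e3 : (∑ j, r j (cls A (J₁ ∪ J₂) j)) + ∑ j, r j (cls A ((J₁ ∩ J₂).erase x) j) ≤
      (∑ j, r j (B₁ j)) + ∑ j, r j (B₂ j) := by
    rw [← Finset.sum_add_distrib, ← Finset.sum_add_distrib]
    apply Finset.sum_le_sum
    intro j _
    have := hsub j (B₁ j) (B₂ j)
    have := hmono j (hU j)
    have := hmono j (hI j)
    omega
  have e4 : ((J₁ ∩ J₂).erase x).card + 1 = (J₁ ∩ J₂).card :=
    Finset.card_erase_add_one (Finset.mem_inter.2 ⟨hx1, hx2⟩)
  have e5 := Finset.card_union_add_card_inter J₁ J₂
  have h1' : (∑ j, r j (B₁ j)) < J₁.card := h1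
  have h2' : (∑ j, r j (B₂ j)) < J₂.card := h2
  omega

/-- Rado's theorem with allowed classes. -/
theorem rado (r : ι → Finset α → ℕ) (h0 : ∀ j, r j ∅ = 0) (hmono : ∀ j, Monotone (r j))
    (hsub : ∀ j X Y, r j (X ∩ Y) + r j (X ∪ Y) ≤ r j X + r j Y) (X : Finset α) :
    ∀ (t : ℕ) (A : α → Finset ι), (∑ x ∈ X, (A x).card) = t →
      (∀ J, J ⊆ X → J.card ≤ ∑ j, r j (cls A J j)) →
      ∃ φ : α → Option ι, (∀ x ∈ X, ∃ j ∈ A x, φ x = some j) ∧
        ∀ j, ∀ J, J ⊆ X.filter (fun x => φ x = some j) → J.card ≤ r j J := by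
  intro t
  induction t using Nat.strong_induction_on with
  | _ t ih =>
  intro A ht h
  by_cases hbig : ∃ x ∈ X, 1 < (A x).card
  · obtain ⟨x, hx, hx1⟩ := hbig
    obtain ⟨a, ha, b, hb, hab⟩ := Finset.one_lt_card.1 hx1
    have key : ∀ c ∈ A x, (∀ J, J ⊆ X → J.card ≤
        ∑ j, r j (cls (Function.update A x ((A x).erase c)) J j)) →
        ∃ φ : α → Option ι, (∀ x ∈ X, ∃ j ∈ A x, φ x = some j) ∧
          ∀ j, ∀ J, J ⊆ X.filter (fun x => φ x = some j) → J.card ≤ r j J := by
      intro c hc hJ
      have hlt : (∑ y ∈ X, (Function.update A x ((A x).erase c) y).card) < t := by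
        rw [← ht]
        apply Finset.sum_lt_sum
        · intro y _
          by_cases hyx : y = x
          · rw [hyx, Function.update_self]
            exact Finset.card_le_card (Finset.erase_subset _ _)
          · rw [Function.update_of_ne hyx]
        · refine ⟨x, hx, ?_⟩
          rw [Function.update_self, Finset.card_erase_of_mem hc]
          omega
      obtain ⟨φ, h1, h2⟩ := ih _ hlt _ rfl hJ
      refine ⟨φ, fun y hy => ?_, h2⟩
      obtain ⟨j, hj, hφ⟩ := h1 y hy
      refine ⟨j, ?_, hφ⟩
      by_cases hyx : y = x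
      · rw [hyx, Function.update_self] at hj
        rw [hyx]
        exact Finset.mem_of_mem_erase hj
      · rwa [Function.update_of_ne hyx] at hj
    rcases rado_step r hmono hsub A X h hab (x := x) with h1 | h1
    · exact key a ha h1
    · exact key b hb h1
  · push Not at hbig
    have hone : ∀ x ∈ X, ∃ j, A x = {j} := by
      intro x hx
      rw [← Finset.card_eq_one]
      have h1 := hbig x hx
      have h2 : (A x).card ≠ 0 := by
        intro h3
        rw [Finset.card_eq_zero] at h3
        have h4 := h {x} (Finset.singleton_subset_iff.2 hx)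
        have h5 : ∀ j, cls A {x} j = ∅ := by
          intro j
          rw [Finset.eq_empty_iff_forall_notMem]
          intro y hy
          rw [mem_cls, Finset.mem_singleton] at hy
          rw [hy.1, h3] at hy
          exact Finset.notMem_empty _ hy.2
        rw [Finset.sum_congr rfl fun j _ => by rw [h5 j, h0 j]] at h4
        simp at h4
      omega
    classical
    refine ⟨fun x => if hx : x ∈ X then some (hone x hx).choose else none, ?_, ?_⟩
    · intro x hx
      have h1 := (hone x hx).choose_spec
      refine ⟨(hone x hx).choose, ?_, dif_pos hx⟩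
      exact ((Finset.ext_iff.1 h1) _).2 (Finset.mem_singleton_self _)
    · intro j J hJ
      have hJX : J ⊆ X := hJ.trans (Finset.filter_subset _ _)
      have h1 := h J hJX
      have h2 : ∀ x ∈ J, A x = {j} := by
        intro x hx
        have h3 := (Finset.mem_filter.1 (hJ hx)).2
        simp only at h3
        rw [dif_pos (hJX hx), Option.some.injEq] at h3
        have h4 := (hone x (hJX hx)).choose_spec
        rw [h3] at h4
        exact h4
      have h3 : ∀ i, i ≠ j → r i (cls A J i) = 0 := by
        intro i hi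
        have h4 : cls A J i = ∅ := by
          rw [Finset.eq_empty_iff_forall_notMem]
          intro y hy
          rw [mem_cls] at hy
          rw [h2 y hy.1, Finset.mem_singleton] at hy
          exact hi hy.2
        rw [h4, h0]
      rw [Finset.sum_eq_single j (fun i _ hi => h3 i hi) (fun hj => absurd (Finset.mem_univ _) hj)]
        at h1
      exact h1.trans (hmono j (Finset.filter_subset _ _))

end MP_3bf421_lc.UN
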