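import Mathlib
import Pool.Agent.Work.MP_3bf421_lc.UN.Rado

/-! Unions of matroids: independence, circuits and their containers. -/

set_option autoImplicit false
set_option linter.unusedSectionVars false
set_option linter.unusedVariables false

namespace MP_3bf421_lc.UN

open Finset

variable {α ι : Type*} [DecidableEq α] [Fintype α]

/-- The rank of a finite set. -/
noncomputable def rk (M : Matroid α) (X : Finset α) : ℕ := (M.eRk (X : Set α)).toNat

theorem coe_rk (M : Matroid α) (X : Finset α) : ((rk M X : ℕ) : ℕ∞) = M.eRk (X : Set α) := by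
  unfold rk
  apply ENat.natCast_toNat
  intro h
  have h1 := M.eRk_le_encard (X : Set α)
  rw [h, Set.encard_coe_eq_coe_finsetCard] at h1
  exact absurd h1 (by simp)

theorem rk_empty (M : Matroid α) : rk M ∅ = 0 := by
  have h := coe_rk M ∅
  rw [Finset.coe_empty, Matroid.eRk_empty] at h
  exact_mod_cast h

theorem rk_mono (M : Matroid α) : Monotone (rk M) := by
  intro X Y h
  have h1 : M.eRk (X : Set α) ≤ M.eRk (Y : Set α) := M.eRk_mono (Finset.coe_subset.2 h)
  rw [← coe_rk, ← coe_rk] at h1
  exact_mod_cast h1

theorem rk_submod (M : Matroid α) (X Y : Finset α) :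
    rk M (X ∩ Y) + rk M (X ∪ Y) ≤ rk M X + rk M Y := by
  have h1 := M.eRk_inter_add_eRk_union_le (X : Set α) (Y : Set α)
  rw [← Finset.coe_inter, ← Finset.coe_union, ← coe_rk, ← coe_rk, ← coe_rk, ← coe_rk] at h1
  exact_mod_cast h1

theorem indep_iff_rk (M : Matroid α) (X : Finset α) :
    M.Indep (X : Set α) ↔ X.card ≤ rk M X := by
  rw [M.indep_iff_eRk_eq_encard_of_finite X.finite_toSet, ← coe_rk,
    Set.encard_coe_eq_coe_finsetCard]
  constructor
  · intro h
    have h1 : rk M X = X.card := by exact_mod_cast h
    omega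
  · intro h
    have h1 := M.eRk_le_encard (X : Set α)
    rw [← coe_rk, Set.encard_coe_eq_coe_finsetCard] at h1
    have h2 : rk M X ≤ X.card := by exact_mod_cast h1
    have h3 : rk M X = X.card := by omega
    rw [h3]

theorem rk_le_card (M : Matroid α) (X : Finset α) : rk M X ≤ X.card := by
  have h1 := M.eRk_le_encard (X : Set α)
  rw [← coe_rk, Set.encard_coe_eq_coe_finsetCard] at h1
  exact_mod_cast h1

/-- If no element of `Y` increases the rank of `J` then `Y` does not. -/
theorem rk_union_eq (M : Matroid α) (J : Finset α) (Y : Finset α)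
    (h : ∀ x ∈ Y, rk M (insert x J) = rk M J) : rk M (J ∪ Y) = rk M J := by
  induction Y using Finset.induction_on with
  | empty => rw [Finset.union_empty]
  | @insert y Y hy ih =>
    have h1 := ih fun x hx => h x (Finset.mem_insert_of_mem hx)
    have h2 := h y (Finset.mem_insert_self _ _)
    have h3 := rk_submod M (J ∪ Y) (insert y J)
    have h4 : J ⊆ (J ∪ Y) ∩ insert y J := Finset.subset_inter Finset.subset_union_left
      (Finset.subset_insert _ _)
    have h5 : (J ∪ Y) ∪ insert y J = J ∪ insert y Y := by
      ext x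
      simp only [Finset.mem_union, Finset.mem_insert]
      tauto
    rw [h5] at h3
    have h6 := rk_mono M h4
    have h7 : rk M J ≤ rk M (J ∪ insert y Y) := rk_mono M Finset.subset_union_left
    omega

variable [Fintype ι]

/-- The sum of the ranks. -/
noncomputable def fs (M : ι → Matroid α) (X : Finset α) : ℕ := ∑ j, rk (M j) X

theorem fs_mono (M : ι → Matroid α) : Monotone (fs M) := fun _ _ h =>
  Finset.sum_le_sum fun j _ => rk_mono (M j) h

/-- `N` is the union of the matroids `M j`. -/
def IsUnion (N : Matroid α) (M : ι → Matroid α) : Prop :=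
  ∀ I : Set α, N.Indep I ↔ ∃ J : ι → Set α, (∀ j, (M j).Indep (J j)) ∧ I = ⋃ j, J j

/-- Rado, Edmonds: independence in the union of matroids. -/
theorem IsUnion.indep_iff {N : Matroid α} {M : ι → Matroid α} (hN : IsUnion N M)
    (X : Finset α) : N.Indep (X : Set α) ↔ ∀ J, J ⊆ X → J.card ≤ fs M J := by
  classical
  rw [hN]
  constructor
  · rintro ⟨I, hI, hX⟩ J hJ
    have h1 : J = univ.biUnion fun j => J.filter fun x => x ∈ I j := by
      ext x
      rw [Finset.mem_biUnion]
      constructor
      · intro hx
        have h2 : x ∈ (X : Set α) := hJ hx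
        rw [hX, Set.mem_iUnion] at h2
        obtain ⟨j, hj⟩ := h2
        exact ⟨j, Finset.mem_univ _, Finset.mem_filter.2 ⟨hx, hj⟩⟩
      · rintro ⟨j, _, hx⟩
        exact (Finset.mem_filter.1 hx).1
    calc J.card = (univ.biUnion fun j => J.filter fun x => x ∈ I j).card := by rw [← h1]
      _ ≤ ∑ j, (J.filter fun x => x ∈ I j).card := Finset.card_biUnion_le
      _ ≤ ∑ j, rk (M j) J := by
        apply Finset.sum_le_sum
        intro j _
        have h3 : (M j).Indep ((J.filter fun x => x ∈ I j : Finset α) : Set α) := by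
          apply (hI j).subset
          intro x hx
          exact (Finset.mem_filter.1 (Finset.mem_coe.1 hx)).2
        exact ((indep_iff_rk _ _).1 h3).trans (rk_mono _ (Finset.filter_subset _ _))
  · intro h
    obtain ⟨φ, h1, h2⟩ := rado (fun j => rk (M j)) (fun j => rk_empty _) (fun j => rk_mono _)
      (fun j => rk_submod _) X _ (fun _ => univ) rfl (fun J hJ => by
        have h3 : ∀ j, cls (fun _ => (univ : Finset ι)) J j = J := by
          intro j
          unfold cls
          rw [Finset.filter_true_of_mem]
          intro x _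
          exact Finset.mem_univ _
        rw [Finset.sum_congr rfl fun j _ => by rw [h3 j]]
        exact h J hJ)
    refine ⟨fun j => ((X.filter fun x => φ x = some j : Finset α) : Set α), fun j => ?_, ?_⟩
    · rw [indep_iff_rk]
      exact h2 j _ (Finset.Subset.refl _)
    · ext x
      rw [Set.mem_iUnion]
      constructor
      · intro hx
        obtain ⟨j, _, hj⟩ := h1 x (Finset.mem_coe.1 hx)
        exact ⟨j, Finset.mem_coe.2 (Finset.mem_filter.2 ⟨Finset.mem_coe.1 hx, hj⟩)⟩
      · rintro ⟨j, hx⟩
        exact Finset.mem_coe.2 (Finset.mem_filter.1 (Finset.mem_coe.1 hx)).1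

/-- The ranks of a circuit of the union. -/
theorem IsUnion.circuit {N : Matroid α} {M : ι → Matroid α} (hN : IsUnion N M)
    {D : Finset α} (hD : N.IsCircuit (D : Set α)) {e : α} (he : e ∈ D) :
    fs M D = fs M (D.erase e) ∧ (D.erase e).card = fs M (D.erase e) := by
  have h1 : ¬ N.Indep (D : Set α) := hD.not_indep
  rw [hN.indep_iff] at h1
  push Not at h1
  obtain ⟨J, hJ, h2⟩ := h1
  have h3 : ¬ N.Indep (J : Set α) := by
    rw [hN.indep_iff]
    push Not
    exact ⟨J, Finset.Subset.refl _, h2⟩
  have h4 : J = D := by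
    by_contra hne
    apply h3
    apply hD.ssubset_indep
    rw [Finset.coe_ssubset]
    exact Finset.ssubset_iff_subset_ne.2 ⟨hJ, hne⟩
  rw [h4] at h2
  have h5 : N.Indep ((D.erase e : Finset α) : Set α) := by
    apply hD.ssubset_indep
    rw [Finset.coe_ssubset]
    exact Finset.erase_ssubset he
  rw [hN.indep_iff] at h5
  have h6 := h5 _ (Finset.Subset.refl _)
  have h7 : fs M (D.erase e) ≤ fs M D := fs_mono M (Finset.erase_subset _ _)
  have h8 := Finset.card_erase_add_one he
  omega

open Classical in
/-- Small spanning subsets if every matroid of the list occurs at least `k` times. -/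
theorem exists_small_span (M : ι → Matroid α) {k : ℕ}
    (hk : ∀ j, k ≤ (univ.filter fun i => M i = M j).card) (Y : Finset α) :
    ∃ J, J ⊆ Y ∧ fs M J = fs M Y ∧ k * J.card ≤ fs M J := by
  have hne : (Y.powerset.filter fun J => k * J.card ≤ fs M J).Nonempty :=
    ⟨∅, Finset.mem_filter.2 ⟨Finset.empty_mem_powerset _, by simp⟩⟩
  obtain ⟨J, hJ, hmax⟩ := Finset.exists_max_image _ Finset.card hne
  rw [Finset.mem_filter, Finset.mem_powerset] at hJ
  refine ⟨J, hJ.1, ?_, hJ.2⟩
  by_contra hne
  have hlt : fs M J < fs M Y := lt_of_le_of_ne (fs_mono M hJ.1) hne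
  obtain ⟨j, _, hj⟩ := Finset.exists_lt_of_sum_lt hlt
  have hx : ∃ x ∈ Y, rk (M j) (insert x J) ≠ rk (M j) J := by
    by_contra hcon
    push Not at hcon
    have h1 := rk_union_eq (M j) J Y hcon
    rw [Finset.union_eq_right.2 hJ.1] at h1
    omega
  obtain ⟨x, hxY, hxJ⟩ := hx
  have hxn : x ∉ J := by
    intro h
    exact hxJ (by rw [Finset.insert_eq_self.2 h])
  have h2 : fs M J + k ≤ fs M (insert x J) := by
    have h3 : ∀ i, rk (M i) J + (if M i = M j then 1 else 0) ≤ rk (M i) (insert x J) := by
      intro i
      have h4 := rk_mono (M i) (Finset.subset_insert x J)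
      by_cases hi : M i = M j
      · rw [if_pos hi]
        have h5 := rk_mono (M j) (Finset.subset_insert x J)
        rw [hi]
        omega
      · rw [if_neg hi]
        omega
    calc fs M J + k ≤ (∑ i, rk (M i) J) + (univ.filter fun i => M i = M j).card :=
          Nat.add_le_add_left (hk j) _
      _ = ∑ i, (rk (M i) J + (if M i = M j then 1 else 0)) := by
          rw [Finset.sum_add_distrib, Finset.card_filter]
      _ ≤ _ := Finset.sum_le_sum fun i _ => h3 i
  have h6 := hmax (insert x J) (by
    rw [Finset.mem_filter, Finset.mem_powerset]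
    refine ⟨Finset.insert_subset hxY hJ.1, ?_⟩
    rw [Finset.card_insert_of_notMem hxn, mul_add, mul_one]
    have := hJ.2
    omega)
  rw [Finset.card_insert_of_notMem hxn] at h6
  omega

open Classical in
/-- The container of `J`: the elements which do not increase any rank of `J`. -/
noncomputable def cont (M : ι → Matroid α) (J : Finset α) : Finset α :=
  univ.filter fun x => ∀ j, rk (M j) (insert x J) = rk (M j) J

theorem mem_cont {M : ι → Matroid α} {J : Finset α} {x : α} :
    x ∈ cont M J ↔ ∀ j, rk (M j) (insert x J) = rk (M j) J := by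
  classical
  unfold cont
  rw [Finset.mem_filter]
  exact ⟨fun h => h.2, fun h => ⟨Finset.mem_univ _, h⟩⟩

theorem subset_cont (M : ι → Matroid α) (J : Finset α) : J ⊆ cont M J := by
  intro x hx
  rw [mem_cont]
  intro j
  rw [Finset.insert_eq_self.2 hx]

theorem fs_cont (M : ι → Matroid α) (J : Finset α) : fs M (cont M J) = fs M J := by
  apply Finset.sum_congr rfl
  intro j _
  have h1 := rk_union_eq (M j) J (cont M J) fun x hx => mem_cont.1 hx j
  rw [Finset.union_eq_right.2 (subset_cont M J)] at h1
  exact h1

/-- Independent sets of the union inside a container are small. -/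
theorem IsUnion.card_le_of_cont {N : Matroid α} {M : ι → Matroid α} (hN : IsUnion N M)
    {I J : Finset α} (hI : N.Indep (I : Set α)) (h : I ⊆ cont M J) : I.card ≤ fs M J := by
  have h1 := (hN.indep_iff I).1 hI I (Finset.Subset.refl _)
  have h2 := fs_mono M h
  rw [fs_cont] at h2
  exact h1.trans h2

theorem subset_cont_of_fs_eq {M : ι → Matroid α} {J Y : Finset α} (hJ : J ⊆ Y)
    (h : fs M J = fs M Y) : Y ⊆ cont M J := by
  intro x hx
  rw [mem_cont]
  intro j
  have h1 : ∀ i ∈ (univ : Finset ι), rk (M i) J = rk (M i) Y := by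
    have h2 : ∀ i ∈ (univ : Finset ι), rk (M i) J ≤ rk (M i) Y := fun i _ => rk_mono _ hJ
    exact (Finset.sum_eq_sum_iff_of_le h2).1 h
  have h3 := h1 j (Finset.mem_univ _)
  have h4 := rk_mono (M j) (Finset.subset_insert x J)
  have h5 := rk_mono (M j) (Finset.insert_subset hx hJ)
  omega

open Classical in
/-- Every circuit of the union through `e` is covered, apart from `e`, by the container of a small
set, in which it fills the rank. -/
theorem IsUnion.circuit_cont {N : Matroid α} {M : ι → Matroid α} (hN : IsUnion N M) {k : ℕ}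
    (hk : ∀ j, k ≤ (univ.filter fun i => M i = M j).card)
    {D : Finset α} (hD : N.IsCircuit (D : Set α)) {e : α} (he : e ∈ D) :
    ∃ J, J ⊆ D.erase e ∧ k * J.card ≤ fs M J ∧ D.erase e ⊆ cont M J ∧
      (D.erase e).card = fs M J := by
  obtain ⟨J, h1, h2, h3⟩ := exists_small_span M hk (D.erase e)
  have h4 := hN.circuit hD he
  refine ⟨J, h1, h3, subset_cont_of_fs_eq h1 h2, ?_⟩
  rw [h2]
  exact h4.2

end MP_3bf421_lc.UN
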