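import Mathlib
import Pool.Agent.Work.MP_3bf421_lc.UN.Union

/-! The greedy optimum of a weighted matroid in terms of ranks. -/

set_option autoImplicit false
set_option linter.unusedSectionVars false
set_option linter.unusedVariables false

namespace MP_3bf421_lc.UN

open Finset

variable {α : Type*} [DecidableEq α] [Fintype α] {K : Type*} [LinearOrder K]

/-- `e` is spanned by the finite set `X`. -/
def Sp (M : Matroid α) (X : Finset α) (e : α) : Prop := rk M (insert e X) = rk M X

theorem rk_insert_le (M : Matroid α) (X : Finset α) (e : α) : rk M (insert e X) ≤ rk M X + 1 := by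
  have h1 := rk_submod M X {e}
  have h2 := rk_le_card M {e}
  rw [Finset.card_singleton] at h2
  have h3 : X ∪ {e} = insert e X := by rw [Finset.union_comm]; rfl
  rw [h3] at h1
  omega

theorem rk_insert_of_not_sp {M : Matroid α} {X : Finset α} {e : α} (h : ¬ Sp M X e) :
    rk M (insert e X) = rk M X + 1 := by
  have h1 := rk_insert_le M X e
  have h2 := rk_mono M (Finset.subset_insert e X)
  unfold Sp at h
  omega

theorem sp_of_mem {M : Matroid α} {X : Finset α} {e : α} (h : e ∈ X) : Sp M X e := by
  unfold Sp
  rw [Finset.insert_eq_self.2 h]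

theorem Sp.mono {M : Matroid α} {X Y : Finset α} {e : α} (h : Sp M X e) (hXY : X ⊆ Y) :
    Sp M Y e := by
  unfold Sp at h ⊢
  have h1 := rk_submod M (insert e X) Y
  have h2 : insert e X ∪ Y = insert e Y := by
    rw [Finset.insert_union, Finset.union_eq_right.2 hXY]
  have h3 : rk M X ≤ rk M (insert e X ∩ Y) := rk_mono M
    (Finset.subset_inter (Finset.subset_insert _ _) hXY)
  have h4 := rk_mono M (Finset.subset_insert e Y)
  rw [h2] at h1
  omega

theorem Sp.trans {M : Matroid α} {X Y : Finset α} {e : α} (h : Sp M Y e)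
    (hY : ∀ y ∈ Y, Sp M X y) : Sp M X e := by
  have h1 : rk M (X ∪ Y) = rk M X := rk_union_eq M X Y hY
  have h2 : Sp M (X ∪ Y) e := h.mono Finset.subset_union_right
  unfold Sp at h2 ⊢
  have h3 : rk M (insert e X) ≤ rk M (insert e (X ∪ Y)) := rk_mono M
    (Finset.insert_subset_insert _ Finset.subset_union_left)
  have h4 := rk_mono M (Finset.subset_insert e X)
  omega

theorem indep_insert {M : Matroid α} {X : Finset α} {e : α} (hX : M.Indep (X : Set α))
    (h : ¬ Sp M X e) : M.Indep ((insert e X : Finset α) : Set α) := by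
  rw [indep_iff_rk] at hX ⊢
  rw [rk_insert_of_not_sp h]
  exact (Finset.card_insert_le _ _).trans (by omega)

theorem not_sp_of_indep {M : Matroid α} {X : Finset α} {e : α} (he : e ∉ X)
    (h : M.Indep ((insert e X : Finset α) : Set α)) : ¬ Sp M X e := by
  intro hs
  rw [indep_iff_rk, hs, Finset.card_insert_of_notMem he] at h
  have := rk_le_card M X
  omega

/-- Augmentation. -/
theorem exists_aug {M : Matroid α} {X I : Finset α} (hI : M.Indep (I : Set α)) (hIX : I ⊆ X)
    (h : I.card < rk M X) : ∃ f ∈ X, f ∉ I ∧ M.Indep ((insert f I : Finset α) : Set α) := by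
  by_contra hcon
  push Not at hcon
  have h1 : ∀ f ∈ X, Sp M I f := by
    intro f hf
    by_cases hfI : f ∈ I
    · exact sp_of_mem hfI
    · by_contra hs
      exact hcon f hf hfI (indep_insert hI hs)
  have h2 := rk_union_eq M I X h1
  rw [Finset.union_eq_right.2 hIX] at h2
  have h3 := rk_le_card M I
  omega

/-- The elements of `X` with larger key. -/
def up (κ : α → K) (X : Finset α) (e : α) : Finset α := X.filter fun x => κ e < κ x

theorem mem_up {κ : α → K} {X : Finset α} {e x : α} : x ∈ up κ X e ↔ x ∈ X ∧ κ e < κ x := by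
  unfold up
  rw [Finset.mem_filter]

theorem up_mono (κ : α → K) {X Y : Finset α} (h : X ⊆ Y) (e : α) : up κ X e ⊆ up κ Y e :=
  Finset.filter_subset_filter _ h

open Classical in
/-- The optimum of `X`: the elements not spanned by the elements with larger key. -/
noncomputable def opt (M : Matroid α) (κ : α → K) (X : Finset α) : Finset α :=
  X.filter fun e => ¬ Sp M (up κ X e) e

theorem mem_opt {M : Matroid α} {κ : α → K} {X : Finset α} {e : α} :
    e ∈ opt M κ X ↔ e ∈ X ∧ ¬ Sp M (up κ X e) e := by
  classical
  unfold opt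
  rw [Finset.mem_filter]

/-- The optimum of the whole set remains optimal in a subset. -/
theorem opt_restrict {M : Matroid α} {κ : α → K} {X Y : Finset α} (h : X ⊆ Y) {e : α}
    (he : e ∈ opt M κ Y) (heX : e ∈ X) : e ∈ opt M κ X := by
  rw [mem_opt] at he ⊢
  exact ⟨heX, fun hs => he.2 (hs.mono (up_mono κ h e))⟩

theorem up_insert_min {κ : α → K} {X : Finset α} {a e : α} (hmin : ∀ x ∈ X, κ a < κ x)
    (he : e ∈ X) : up κ (insert a X) e = up κ X e := by
  ext x
  rw [mem_up, mem_up, Finset.mem_insert]
  constructor
  · rintro ⟨rfl | h1, h2⟩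
    · exact absurd (h2.trans (hmin e he)) (lt_irrefl _)
    · exact ⟨h1, h2⟩
  · rintro ⟨h1, h2⟩
    exact ⟨Or.inr h1, h2⟩

theorem up_min {κ : α → K} {X : Finset α} {a : α} (hmin : ∀ x ∈ X, κ a < κ x) :
    up κ (insert a X) a = X := by
  ext x
  rw [mem_up, Finset.mem_insert]
  constructor
  · rintro ⟨rfl | h1, h2⟩
    · exact absurd h2 (lt_irrefl _)
    · exact h1
  · intro h1
    exact ⟨Or.inr h1, hmin x h1⟩

theorem opt_insert_of_sp {M : Matroid α} {κ : α → K} {X : Finset α} {a : α}
    (hmin : ∀ x ∈ X, κ a < κ x) (hs : Sp M X a) : opt M κ (insert a X) = opt M κ X := by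
  ext e
  rw [mem_opt, mem_opt, Finset.mem_insert]
  constructor
  · rintro ⟨rfl | h1, h2⟩
    · rw [up_min hmin] at h2
      exact absurd hs h2
    · rw [up_insert_min hmin h1] at h2
      exact ⟨h1, h2⟩
  · rintro ⟨h1, h2⟩
    rw [up_insert_min hmin h1]
    exact ⟨Or.inr h1, h2⟩

theorem opt_insert_of_not_sp {M : Matroid α} {κ : α → K} {X : Finset α} {a : α}
    (hmin : ∀ x ∈ X, κ a < κ x) (hs : ¬ Sp M X a) :
    opt M κ (insert a X) = insert a (opt M κ X) := by
  ext e
  rw [mem_opt, Finset.mem_insert, Finset.mem_insert, mem_opt]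
  constructor
  · rintro ⟨rfl | h1, h2⟩
    · exact Or.inl rfl
    · rw [up_insert_min hmin h1] at h2
      exact Or.inr ⟨h1, h2⟩
  · rintro (rfl | ⟨h1, h2⟩)
    · rw [up_min hmin]
      exact ⟨Or.inl rfl, hs⟩
    · rw [up_insert_min hmin h1]
      exact ⟨Or.inr h1, h2⟩

/-- Induction removing the element with the least key. -/
theorem min_induction {κ : α → K} (hκ : Function.Injective κ) {p : Finset α → Prop} (h0 : p ∅)
    (h1 : ∀ (a : α) (X : Finset α), a ∉ X → (∀ x ∈ X, κ a < κ x) → p X → p (insert a X))
    (X : Finset α) : p X := by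
  induction hn : X.card generalizing X with
  | zero =>
    rw [Finset.card_eq_zero] at hn
    rw [hn]
    exact h0
  | succ n ih =>
    have hne : X.Nonempty := by
      rw [← Finset.card_pos]
      omega
    obtain ⟨a, ha, hmin⟩ := Finset.exists_min_image X κ hne
    have h2 := h1 a (X.erase a) (Finset.notMem_erase _ _) (fun x hx => by
      rw [Finset.mem_erase] at hx
      exact lt_of_le_of_ne (hmin x hx.2) fun h => hx.1 (hκ h).symm)
      (ih (X.erase a) (by rw [Finset.card_erase_of_mem ha]; omega))
    rwa [Finset.insert_erase ha] at h2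

theorem card_opt {M : Matroid α} {κ : α → K} (hκ : Function.Injective κ) (X : Finset α) :
    (opt M κ X).card = rk M X := by
  refine min_induction (p := fun X => (opt M κ X).card = rk M X) hκ ?_ ?_ X
  · have h1 : opt M κ ∅ = ∅ := by
      rw [Finset.eq_empty_iff_forall_notMem]
      intro e he
      exact Finset.notMem_empty _ (mem_opt.1 he).1
    rw [h1, rk_empty, Finset.card_empty]
  · intro a X ha hmin ih
    by_cases hs : Sp M X a
    · rw [opt_insert_of_sp hmin hs, ih]
      exact hs.symm
    · rw [opt_insert_of_not_sp hmin hs, Finset.card_insert_of_notMem, ih,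
        rk_insert_of_not_sp hs]
      exact fun h => ha (mem_opt.1 h).1

/-- The optimum is at least as heavy as every independent set. -/
theorem sum_le_opt {M : Matroid α} {κ : α → K} (hκ : Function.Injective κ) (w : α → ℝ)
    (hw : ∀ e, 0 ≤ w e) (hmono : ∀ e f, κ e < κ f → w e ≤ w f) (X : Finset α) :
    ∀ I, I ⊆ X → M.Indep (I : Set α) → ∑ e ∈ I, w e ≤ ∑ e ∈ opt M κ X, w e := by
  refine min_induction (p := fun X => ∀ I, I ⊆ X → M.Indep (I : Set α) →
    ∑ e ∈ I, w e ≤ ∑ e ∈ opt M κ X, w e) hκ ?_ ?_ X
  · intro I hI _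
    rw [Finset.subset_empty.1 hI, Finset.sum_empty]
    exact Finset.sum_nonneg fun e _ => hw e
  · intro a X ha hmin ih I hI hind
    by_cases haI : a ∈ I
    · have hI' : I.erase a ⊆ X := by
        intro x hx
        rw [Finset.mem_erase] at hx
        rcases Finset.mem_insert.1 (hI hx.2) with h | h
        · exact absurd h hx.1
        · exact h
      have hind' : M.Indep ((I.erase a : Finset α) : Set α) :=
        hind.subset (Finset.coe_subset.2 (Finset.erase_subset _ _))
      by_cases hs : Sp M X a
      · rw [opt_insert_of_sp hmin hs]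
        have hcard : (I.erase a).card < rk M X := by
          have h1 := (indep_iff_rk M I).1 hind
          have h2 : rk M I ≤ rk M (insert a X) := rk_mono M hI
          have h3 : rk M (insert a X) = rk M X := hs
          have h4 := Finset.card_erase_add_one haI
          omega
        obtain ⟨f, hfX, hfI, hf⟩ := exists_aug hind' hI' hcard
        have h5 := ih (insert f (I.erase a)) (Finset.insert_subset hfX hI') hf
        rw [Finset.sum_insert hfI] at h5
        have h6 : ∑ e ∈ I, w e = w a + ∑ e ∈ I.erase a, w e :=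
          (Finset.add_sum_erase I w haI).symm
        have h7 := hmono a f (hmin f hfX)
        linarith
      · rw [opt_insert_of_not_sp hmin hs, Finset.sum_insert (fun h => ha (mem_opt.1 h).1),
          ← Finset.add_sum_erase I w haI]
        have := ih _ hI' hind'
        linarith
    · have hI' : I ⊆ X := by
        intro x hx
        rcases Finset.mem_insert.1 (hI hx) with h | h
        · exact absurd (h ▸ hx) haI
        · exact h
      have h1 := ih I hI' hind
      by_cases hs : Sp M X a
      · rw [opt_insert_of_sp hmin hs]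
        exact h1
      · rw [opt_insert_of_not_sp hmin hs, Finset.sum_insert (fun h => ha (mem_opt.1 h).1)]
        have := hw a
        linarith

end MP_3bf421_lc.UN
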