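import Mathlib
import Pool.Agent.Work.MP_3bf421_lc.UN.Greedy

/-! Spanned elements of a union of matroids: the witness needed for the union bound. -/

set_option autoImplicit false
set_option linter.unusedSectionVars false
set_option linter.unusedVariables false

namespace MP_3bf421_lc.UN

open Finset

variable {α ι : Type*} [DecidableEq α] [Fintype α] [Fintype ι]

/-- Closure in terms of ranks. -/
theorem mem_closure_iff_sp {M : Matroid α} (hE : M.E = Set.univ) (X : Finset α) (e : α) :
    e ∈ M.closure (X : Set α) ↔ Sp M X e := by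
  have hX : (X : Set α) ⊆ M.E := by rw [hE]; exact Set.subset_univ _
  unfold Sp
  constructor
  · intro h
    have h1 := M.eRk_insert_closure_eq e (X : Set α)
    have h2 : insert e (M.closure (X : Set α)) = M.closure (X : Set α) :=
      Set.insert_eq_of_mem h
    rw [h2, M.eRk_closure_eq] at h1
    rw [← Finset.coe_insert, ← coe_rk, ← coe_rk] at h1
    exact_mod_cast h1.symm
  · intro h
    by_contra hn
    have h1 := M.eRk_insert_eq_add_one (e := e) (X := (X : Set α))
      ⟨by rw [hE]; exact Set.mem_univ _, hn⟩
    rw [← Finset.coe_insert, ← coe_rk, ← coe_rk, h] at h1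
    have h2 : rk M X = rk M X + 1 := by exact_mod_cast h1
    omega

/-- The container of `J` is the intersection of its closures. -/
theorem mem_cont_iff {M : ι → Matroid α} (hE : ∀ j, (M j).E = Set.univ) {J : Finset α} {x : α} :
    x ∈ cont M J ↔ ∀ j, x ∈ (M j).closure (J : Set α) := by
  rw [mem_cont]
  exact forall_congr' fun j => (mem_closure_iff_sp (hE j) J x).symm

open Classical in
/-- If `e` is spanned in the union by `C`, there is a small nonempty set `J ⊆ C` whose container
contains at least `f(J)` elements of `C`. -/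
theorem IsUnion.key {N : Matroid α} {M : ι → Matroid α} (hN : IsUnion N M) (hE : N.E = Set.univ)
    {k : ℕ} (hk : ∀ j, k ≤ (univ.filter fun i => M i = M j).card)
    {C : Finset α} {e : α} (heC : e ∉ C) (hcl : e ∈ N.closure (C : Set α))
    (hloop : e ∉ N.closure ∅) :
    ∃ J, J ⊆ C ∧ J.Nonempty ∧ k * J.card ≤ fs M J ∧ fs M J ≤ (C ∩ cont M J).card := by
  have hsub : (C : Set α) ⊆ N.E := by rw [hE]; exact Set.subset_univ _
  obtain ⟨D, hD, heD, hDC⟩ : ∃ D : Finset α, N.IsCircuit (D : Set α) ∧ e ∈ D ∧
      D.erase e ⊆ C := by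
    obtain ⟨D', h1, h2, h3⟩ := Matroid.exists_isCircuit_of_mem_closure hcl
      (fun h => heC (Finset.mem_coe.1 h))
    have hfin : D'.Finite := (Finset.finite_toSet (insert e C)).subset (by
      rw [Finset.coe_insert]
      exact h1)
    refine ⟨hfin.toFinset, by rwa [Set.Finite.coe_toFinset], ?_, ?_⟩
    · rwa [Set.Finite.mem_toFinset]
    · intro x hx
      rw [Finset.mem_erase, Set.Finite.mem_toFinset] at hx
      rcases h1 hx.2 with h | h
      · exact absurd h hx.1
      · exact Finset.mem_coe.1 h
  obtain ⟨J, h1, h2, h3, h4⟩ := hN.circuit_cont hk hD heD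
  refine ⟨J, h1.trans hDC, ?_, h2, ?_⟩
  · rw [Finset.nonempty_iff_ne_empty]
    rintro rfl
    have h5 : fs M ∅ = 0 := Finset.sum_eq_zero fun j _ => rk_empty _
    rw [h5, Finset.card_eq_zero] at h4
    apply hloop
    have h6 : (D : Set α) = {e} := by
      rw [← Finset.insert_erase heD, h4]
      simp
    rw [h6] at hD
    have h7 := hD.mem_closure_sdiff_singleton_of_mem (e := e) rfl
    rwa [Set.sdiff_self] at h7
  · rw [← h4]
    exact Finset.card_le_card (Finset.subset_inter hDC h3)

end MP_3bf421_lc.UN
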